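import Pool.Agent.TH131.GHC.Words

/-!
# Elements of group algebras of symmetric groups which act as zero on tensor powers
-/

namespace Pool.Agent.H802GC

open Equiv Pool.Agent.TH131.GHC

section

variable {κ Q Γ M E : Type*} [Field E] [CharZero E] [Fintype κ] [DecidableEq κ] [DecidableEq Q]
  [Fintype Γ] [DecidableEq Γ] [AddCommGroup M] [Module E M]

lemma anti_perm {A : Finset κ} {G : (κ → κ) → E}
    (hG : ∀ p ∈ A, ∀ p' ∈ A, p ≠ p' → ∀ X : κ → κ, G (fun k => X (swap p p' k)) = -G X)
    (ρ : Perm A) (X : κ → κ) :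
    G (fun k => X (Perm.ofSubtype ρ k)) = ((Perm.sign ρ : ℤ) : E) * G X := by
  induction ρ using Equiv.Perm.swap_induction_on generalizing X with
  | one => simp
  | swap_mul f x y hxy ih =>
    have h1 : (fun k => X (Perm.ofSubtype (swap x y * f) k)) =
        fun k => (fun l => X (swap (x : κ) y l)) (Perm.ofSubtype f k) := by
      funext k
      rw [map_mul, Perm.mul_apply, Perm.ofSubtype_swap_eq]
    rw [h1, ih (fun l => X (swap (x : κ) y l)), hG x x.2 y y.2 (fun h => hxy (Subtype.ext h)), Perm.sign_mul, Perm.sign_swap hxy]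
    push_cast
    ring

/-- Let `F` be a combination of permutations preserving the types of the positions which, twisted
by the sign, acts as zero on the tensor product of the spaces of dimension `h q`. If `z` is a
function on the permutations which is killed by all symmetrizations over more than `h q` positions
of type `q`, then it is killed by `F`. -/
theorem alt_sum (gcl : Γ → Q) (qw : κ → Q) (F : Perm κ → E)
    (hF : ∀ σ, F σ ≠ 0 → ∀ k, qw (σ k) = qw k)
    (hV : ∀ c : κ → Γ, (∀ k, gcl (c k) = qw k) → ∀ Y : Γ → κ → E,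
      ∑ σ, F σ * ∏ k, Y (c k) (σ k) = 0)
    (z : Perm κ → M)
    (hz : ∀ (q : Q) (A : Finset κ), A.card = Fintype.card {γ // gcl γ = q} + 1 →
      (∀ k ∈ A, qw k = q) → ∀ σ : Perm κ, (∀ k, qw (σ k) = qw k) →
      ∑ ρ : Perm A, z (σ * Perm.ofSubtype ρ) = 0) :
    ∑ σ, (((Perm.sign σ : ℤ) : E) * F σ) • z σ = 0 := by
  classical
  let L : ((κ → κ) → E) →ₗ[E] M :=
    { toFun := fun G => ∑ σ : Perm κ, (((Perm.sign σ : ℤ) : E) * G (fun k => σ k)) • z σ
      map_add' := by
        intro G G'
        rw [← Finset.sum_add_distrib]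
        refine Finset.sum_congr rfl fun σ _ => ?_
        rw [Pi.add_apply, mul_add, add_smul]
      map_smul' := by
        intro r G
        rw [RingHom.id_apply, Finset.smul_sum]
        refine Finset.sum_congr rfl fun σ _ => ?_
        rw [Pi.smul_apply, smul_eq_mul, smul_smul]
        congr 1
        ring }
  let G0 : (κ → κ) → E := fun w => ∑ σ : Perm κ, if (fun k => σ k) = w then F σ else 0
  have hG0 : ∀ σ : Perm κ, G0 (fun k => σ k) = F σ := by
    intro σ
    simp only [G0]
    rw [Finset.sum_eq_single σ]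
    · rw [if_pos rfl]
    · intro τ _ hτ
      rw [if_neg]
      intro h
      exact hτ (Equiv.ext (congrFun h))
    · intro h
      exact absurd (Finset.mem_univ _) h
  have hsup : ∀ X, G0 X ≠ 0 → ∃ σ : Perm κ, (fun k => σ k) = X ∧ F σ ≠ 0 := by
    intro X hX
    obtain ⟨σ, -, hσ⟩ := Finset.exists_ne_zero_of_sum_ne_zero hX
    split_ifs at hσ with h1
    · exact ⟨σ, h1, hσ⟩
    · exact absurd rfl hσ
  have hmem := mem_anti_of_van (K := E) qw gcl qw G0 (by
    intro X hX k
    obtain ⟨σ, rfl, hσ⟩ := hsup X hX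
    exact hF σ hσ k) (by
    intro c hc Y
    rw [← hV c hc Y]
    simp only [G0]
    have h1 : ∀ X : κ → κ, (∑ σ : Perm κ, if (fun k => σ k) = X then F σ else 0) *
        ∏ k, Y (c k) (X k) = ∑ σ : Perm κ, if (fun k => σ k) = X then
          F σ * ∏ k, Y (c k) (σ k) else 0 := by
      intro X
      rw [Finset.sum_mul]
      refine Finset.sum_congr rfl fun σ _ => ?_
      split_ifs with h
      · subst h
        rfl
      · rw [zero_mul]
    rw [Finset.sum_congr rfl fun X _ => h1 X, Finset.sum_comm]
    refine Finset.sum_congr rfl fun σ _ => ?_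
    rw [Finset.sum_ite_eq]
    simp)
  have hE : ∀ G ∈ Submodule.span E (AntiSet E qw qw fun q => Fintype.card {γ // gcl γ = q}),
      L G = 0 := by
    intro G hG
    induction hG using Submodule.span_induction with
    | zero => exact map_zero _
    | add x y _ _ hx hy => rw [map_add, hx, hy, add_zero]
    | smul r x _ hx => rw [map_smul, hx, smul_zero]
    | mem G hG =>
      obtain ⟨q, A, hA1, hA2, hA3, hA4⟩ := hG
      have h1 : ∀ ρ : Perm A, L G = ∑ σ : Perm κ, (((Perm.sign σ : ℤ) : E) *
          G (fun k => σ k)) • z (σ * Perm.ofSubtype ρ) := by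
        intro ρ
        change ∑ σ : Perm κ, (((Perm.sign σ : ℤ) : E) * G (fun k => σ k)) • z σ = _
        rw [← Equiv.sum_comp (Equiv.mulRight (Perm.ofSubtype ρ))]
        refine Finset.sum_congr rfl fun σ _ => ?_
        rw [Equiv.coe_mulRight]
        have h2 : (fun k => (σ * Perm.ofSubtype ρ) k) =
            fun k => (fun l => σ l) (Perm.ofSubtype ρ k) := rfl
        rw [h2, anti_perm hA4, Perm.sign_mul, Perm.sign_ofSubtype]
        congr 1
        have h3 : (((Perm.sign ρ : ℤ) : E)) * ((Perm.sign ρ : ℤ) : E) = 1 := by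
          rw [← Int.cast_mul, Int.units_coe_mul_self, Int.cast_one]
        push_cast
        linear_combination (((Perm.sign σ : ℤ) : E)) * G (fun k => σ k) * h3
      have h2 : (Fintype.card (Perm A) : E) • L G = 0 := by
        have h3 : (Fintype.card (Perm A) : E) • L G = ∑ _ρ : Perm A, L G := by
          rw [Finset.sum_const, Finset.card_univ, Nat.cast_smul_eq_nsmul]
        rw [h3, Finset.sum_congr rfl fun ρ _ => h1 ρ, Finset.sum_comm]
        refine Finset.sum_eq_zero fun σ _ => ?_
        rw [← Finset.smul_sum]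
        by_cases h4 : G (fun k => σ k) = 0
        · rw [h4, mul_zero, zero_smul]
        · rw [hz q A hA1 hA2 σ (hA3 _ h4), smul_zero]
      exact (smul_eq_zero.1 h2).resolve_left (Nat.cast_ne_zero.2 Fintype.card_ne_zero)
  have h1 := hE _ hmem
  change ∑ σ : Perm κ, (((Perm.sign σ : ℤ) : E) * G0 (fun k => σ k)) • z σ = 0 at h1
  rw [← h1]
  exact Finset.sum_congr rfl fun σ _ => by rw [hG0]

end

end Pool.Agent.H802GC
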