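import Pool.Agent.H802Voi.Defs

/-!
# Quotients of powers of curves: definitions

The Chow groups have coefficients in a field `F` of characteristic zero (for example `ℚ` or `ℝ`).
-/

open CategoryTheory AlgebraicGeometry

universe u v w

namespace Pool.Agent.H802GC

open Pool.Agent.H914 Pool.Agent.H914.VarClass Pool.Agent.H914.VarClass.Obj Pool.Agent.W492.BB
  Pool.Agent.H802Voi

section group

variable {G : Type} {n : ℕ}

/-- The underlying set of the wreath product `G ≀ S_n`. If the group `G` acts on `X` by the
automorphisms `a g`, the element `p = (σ, g)` acts on `X^n` by the automorphism `m_p` with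
`pr_j ∘ m_p = a (g_j) ∘ pr_(σ j)` for all `j`. -/
abbrev Wreath (G : Type) (n : ℕ) : Type := Equiv.Perm (Fin n) × (Fin n → G)

/-- The product `p q` of the wreath product `G ≀ S_n`: the element with `m_(p q) = m_q ∘ m_p`. -/
def wmul [Mul G] (p q : Wreath G n) : Wreath G n := (p.1 * q.1, fun j => q.2 j * p.2 (q.1 j))

/-- The finite set `Γ` is a subgroup of the wreath product `G ≀ S_n` (a subset of a finite group
which contains the unit element and is closed under products). -/
structure IsWreathSubgroup [Group G] (Γ : Finset (Wreath G n)) : Prop where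
  one_mem : ((1 : Equiv.Perm (Fin n)), (1 : Fin n → G)) ∈ Γ
  mul_mem : ∀ p ∈ Γ, ∀ q ∈ Γ, wmul p q ∈ Γ

variable {F : Type w} [Field F] {Φ : Type} {d : Φ → ℕ}

/-- The indices of the copies of the representations `V` in `H^0(X, K_X)`, where `γ V` is the
multiplicity of `V`. -/
abbrev Col (γ : Φ → ℕ) : Type := (V : Φ) × Fin (γ V)

/-- A choice of a basis vector in each representation `V`. -/
abbrev Idx (d : Φ → ℕ) : Type := (V : Φ) → Fin (d V)

/-- The matrix coefficient of `ρ_V(g)` at the chosen basis vectors; it is `1` if there is no `V`. -/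
def optMat (ρ : (V : Φ) → G → Matrix (Fin (d V)) (Fin (d V)) F) (o : Option Φ) (g : G)
    (x y : Idx d) : F := o.elim 1 fun V => ρ V g (x V) (y V)

open Classical in
/-- If `β ∘ σ = β` this is the sign of the permutation induced by `σ` on the support
`{j | β j ≠ none}` of `β`; otherwise it is zero. -/
noncomputable def stabSign {α : Type} (β : Fin n → Option α) (σ : Equiv.Perm (Fin n)) : ℤ :=
  if h : ∀ j, β (σ j) = β j then
    Equiv.Perm.sign (σ.subtypePerm (p := fun j => (β j).isSome) fun j => by rw [h j]) else 0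

/-- Let `ω_(V,x,b)`, for `x < dim V` and `b < γ V`, be a basis of `H^0(X, K_X)` with
`(a g)^* ω_(V,x,b) = ∑_y ρ_V(g)_(x,y) ω_(V,y,b)`. For a map `β` from the positions to the optional
copies `(V, b)`, with support `K`, and a choice `i` of basis vectors let `ω_(β,i)` be the exterior
product of the forms `pr_j^* ω_(V_j,i_j,b_j)`, `j ∈ K`, where `β j = (V_j, b_j)`. These forms are a
basis of the space `H^0(X^n, Ω^•)` of all holomorphic forms on `X^n`. If `β ∘ σ = β` then the
coefficient of `ω_(β,i')` in `m_p^* ω_(β,i)`, for `p = (σ, g)`, is the sign of `σ` on `K` times the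
product of the `ρ_(V_j)(g_j)_(i_j,i'_(σ j))`; otherwise it is zero. The condition: the coefficient
of `ω_(β,i')` in `∑_(p ∈ Γ) m_p^* ω_(β,i)` is zero for all `i`, `i'`. -/
def IsKilled (ρ : (V : Φ) → G → Matrix (Fin (d V)) (Fin (d V)) F) (γ : Φ → ℕ)
    (Γ : Finset (Wreath G n)) (β : Fin n → Option (Col γ)) : Prop :=
  ∀ i i' : Fin n → Idx d, ∑ p ∈ Γ, (stabSign β p.1 : F) *
    ∏ j, optMat ρ ((β j).map Sigma.fst) (p.2 j) (i j) (i' (p.1 j)) = 0

/-- There are no holomorphic forms of positive degree on `X^n` invariant under `Γ` (so a resolution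
of the quotient `X^n / Γ` has no holomorphic forms of positive degree: it has Hodge coniveau at
least one). Namely, the diagonal blocks of the projector `|Γ|^(-1) ∑_(p ∈ Γ) m_p^*` onto the
invariants in `H^0(X^n, Ω^•)`, apart from the block of the form `1`, are zero; the sum of the traces
of these blocks is the dimension of the space of invariant forms of positive degree. -/
def NoForms (ρ : (V : Φ) → G → Matrix (Fin (d V)) (Fin (d V)) F) (γ : Φ → ℕ)
    (Γ : Finset (Wreath G n)) : Prop :=
  ∀ β : Fin n → Option (Col γ), (∃ j, β j ≠ none) → IsKilled ρ γ Γ β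

end group

variable {k : Type u} [Field k] {𝒱 : VarClass k} {F : Type w} [Field F]

/-- The formal properties `IsChowOver` of the Chow groups with coefficients in `F`, and: zero-cycles
have degrees, and there are zero-cycles of degree one. -/
class IsChowDeg (C : TheoryData.{u, v, w} 𝒱 F) : Prop extends IsChowOver C where
  degree : ∀ (X : 𝒱.Obj) (x : C.A X), C.Deg X.dim x → ∃ q : F, ∀ Y : 𝒱.Obj,
    C.down (snd X Y) (C.up (fst X Y) x) = q • (1 : C.A Y)
  exists_one : ∀ X : 𝒱.Obj, ∃ x : C.A X, C.Deg X.dim x ∧ DegreeOne C x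

section defs

variable (C : TheoryData.{u, v, w} 𝒱 F) {n : ℕ} {X P Y : 𝒱.Obj}

/-- The zero-cycle `x` on `X` has degree zero: for all `Y` the push-forward of `x × Y` to `Y` is
zero. -/
def DegreeZero (x : C.A X) : Prop := ∀ Y : 𝒱.Obj, C.down (snd X Y) (C.up (fst X Y) x) = 0

/-- The variety `P` with the projections `t j : P ⟶ X` is the `n`-th power of the curve `X`, and
the group `CH_0(P)` is generated by the exterior products `z_1 × ⋯ × z_n` of zero-cycles on `X`
(this holds for all curves over algebraically closed fields). -/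
structure IsPowerOfCurve (t : Fin n → (P ⟶ X)) : Prop where
  univ : ∀ (W : 𝒱.Obj) (s : Fin n → (W ⟶ X)), ∃! g : W ⟶ P, ∀ j, g ≫ t j = s j
  cycles : ∀ w : C.A P, C.Deg P.dim w → w ∈ Submodule.span F
    {w | ∃ z : Fin n → C.A X, (∀ j, C.Deg 1 (z j)) ∧
      w = (List.ofFn fun j => C.up (t j) (z j)).prod}

/-- The variety `Y` is dominated by the quotient `P / Γ` of `P = X^n`, by means of the
correspondence `b ∈ CH^(dim Y)(P × Y)`: this correspondence is invariant under the action of `Γ`
on `P`, and for some `c ∈ CH^(dim P)(Y × P)` the composition `b_* c_*` is the multiplication by an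
element `N ≠ 0` of `F` on `CH_0(Y)`. (For example `b` is the graph of a dominant rational map
from `P` to `Y` which factors through `P / Γ`, and `c` is the transpose of its restriction to a
subvariety of `P` which is generically finite over `Y`.) -/
def IsDominatedBy {G : Type} (a : G → (X ⟶ X)) (t : Fin n → (P ⟶ X)) (Γ : Finset (Wreath G n))
    (b : C.A (P.prod Y)) : Prop :=
  C.Deg Y.dim b ∧
  (∀ p ∈ Γ, ∀ m : P ⟶ P, (∀ j, m ≫ t j = t (p.1 j) ≫ a (p.2 j)) →
    C.up (prodMap m (𝟙 Y)) b = b) ∧
  ∃ (c : C.A (Y.prod P)) (N : F), C.Deg P.dim c ∧ N ≠ 0 ∧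
    ∀ α : C.A Y, C.Deg Y.dim α → C.act b (C.act c α) = N • α

end defs

end Pool.Agent.H802GC
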