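import Pool.Agent.H802GC.RelZ

/-!
# Zero-cycles on varieties dominated by quotients of powers of curves
-/

open CategoryTheory AlgebraicGeometry

universe u v w

namespace Pool.Agent.H802GC

open Pool.Agent.H914 Pool.Agent.H914.VarClass Pool.Agent.H914.VarClass.Obj Pool.Agent.W492.BB
  Pool.Agent.W550.Corr Pool.Agent.TH133 Pool.Agent.H802Voi

set_option linter.unusedSectionVars false

variable {k : Type u} [Field k] {𝒱 : VarClass k} {F : Type w} [Field F] [CharZero F]

variable {C : TheoryData.{u, v, w} 𝒱 F} {X Y Z W V T S P : 𝒱.Obj}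

variable {G : Type} [Group G] [Fintype G] {Φ : Type} [Fintype Φ] {d : Φ → ℕ}
  {ρ : (V : Φ) → G → Matrix (Fin (d V)) (Fin (d V)) F} {γ : Φ → ℕ} {n : ℕ}
  {a : G → (X ⟶ X)} {e : C.A X} {t : Fin n → (P ⟶ X)}
  {Γ : Finset (Wreath G n)} {b : C.A (P.prod Y)}

/-- The elements of the wreath product act. -/
lemma exists_mor (hP : IsPowerOfCurve C t) (h0 : a 1 = 𝟙 X)
    (h1 : ∀ g h, a (g * h) = a h ≫ a g) (p : Wreath G n) :
    ∃ m m' : P ⟶ P, m ≫ m' = 𝟙 P ∧ m' ≫ m = 𝟙 P ∧ ∀ j, m ≫ t j = t (p.1 j) ≫ a (p.2 j) := by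
  obtain ⟨m, hm, -⟩ := hP.univ P fun j => t (p.1 j) ≫ a (p.2 j)
  obtain ⟨m', hm', -⟩ := hP.univ P fun j => t (p.1⁻¹ j) ≫ a (p.2 (p.1⁻¹ j))⁻¹
  have huniq : ∀ g : P ⟶ P, (∀ j, g ≫ t j = t j) → g = 𝟙 P := by
    intro g hg
    obtain ⟨g0, -, h3⟩ := hP.univ P t
    rw [h3 g hg, h3 (𝟙 P) fun j => Category.id_comp _]
  refine ⟨m, m', huniq _ fun j => ?_, huniq _ fun j => ?_, hm⟩
  · rw [Category.assoc, hm', ← Category.assoc, hm, Category.assoc, act_left h0 h1]
    simp
  · rw [Category.assoc, hm, ← Category.assoc, hm', Category.assoc]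
    simp [act_right h0 h1]

section chow

variable [hC : IsChowOver C]

include hC

/-- The class attached to an optional representation. -/
noncomputable def bas (hρ : IsOrthogonalFamily d ρ) (a : G → (X ⟶ X)) (e : C.A X) (o : Option Φ)
    (z : C.A X) (x : Idx d) : C.A X := o.elim e fun V => emb hρ a V (x V) z

lemma bas_deg (hρ : IsOrthogonalFamily d ρ) (he : C.Deg 1 e) {z : C.A X} (hz : C.Deg 1 z)
    (o : Option Φ) (x : Idx d) : C.Deg 1 (bas hρ a e o z x) := by
  cases o with
  | none => exact he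
  | some V => exact ga_deg _ hz

/-- The action on the basic classes. -/
lemma pull_bas [DecidableEq Φ] (hρ : IsOrthogonalFamily d ρ) (h1 : ∀ g h, a (g * h) = a h ≫ a g)
    (hinv : ∀ g, C.pull (a g) e = e) (o : Option Φ) (z : C.A X) (x : Idx d) (g : G) :
    (wt d o : F) • C.pull (a g) (bas hρ a e o z x) =
      ∑ m : Idx d, optMat ρ o g x m • bas hρ a e o z m := by
  cases o with
  | none =>
    simp only [bas, optMat, Option.elim, hinv, one_smul, wt, Finset.sum_const, Finset.card_univ,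
      Nat.cast_smul_eq_nsmul]
  | some V =>
    simp only [bas, optMat, Option.elim]
    rw [pull_emb hρ h1, sum_idx V fun l => ρ V g (x V) l • emb hρ a V l z,
      Nat.cast_smul_eq_nsmul]

/-- The contribution of a type whose forms are killed. -/
theorem killed_type [DecidableEq Φ] (hρ : IsOrthogonalFamily d ρ) (hd : X.dim = 1)
    (h0 : a 1 = 𝟙 X) (h1 : ∀ g h, a (g * h) = a h ≫ a g)
    (he : C.Deg 1 e) (he1 : DegreeOne C e) (hinv : ∀ g, C.pull (a g) e = e)
    (hk : ∀ V, OddSym (groupCorr C a e (coeff hρ.pos ρ V)) (γ V))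
    (hP : IsPowerOfCurve C t) (hΓ : IsWreathSubgroup Γ)
    (hb : ∀ p ∈ Γ, ∀ m : P ⟶ P, (∀ j, m ≫ t j = t (p.1 j) ≫ a (p.2 j)) →
      C.pull (prodMap m (𝟙 Y)) b = b)
    (c : Fin n → Option Φ)
    (hc : ∀ β : Fin n → Option (Col γ), (∀ j, (β j).map Sigma.fst = c j) → IsKilled ρ γ Γ β)
    (i : Fin n → Idx d) (z : Fin n → C.A X) (hz : ∀ j, C.Deg 1 (z j))
    (hz1 : ∀ j V, c j = some V →
      C.act (groupCorr C a e (coeff hρ.pos ρ V)) (z j) = z j) :
    C.act b (∏ j, C.pull (t j) (bas hρ a e (c j) (z j) (i j))) = 0 := by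
  classical
  set E : C.A P := ∏ j ∈ Finset.univ.filter (fun j => ¬ (c j).isSome), C.pull (t j) e with hE
  -- the sums over the stabilizer
  have key : ∀ i' : Fin n → Idx d, ∑ p ∈ stab Γ c, co ρ c p i i' •
      ∏ x : {j // (c j).isSome}, C.pull (t (res c p x))
        (bas hρ a e (c x) (z x) (i' (res c p x))) = 0 := by
    intro i'
    refine stab_sum (M := C.A P) ρ hΓ hρ.pos hρ.map_mul c hc i i'
      (fun σ => ∏ x : {j // (c j).isSome}, C.pull (t (σ x))
        (bas hρ a e (c x) (z x) (i' (σ x)))) ?_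
    intro q A hA hAq σ hσ
    refine relL_sub (κ := {j // (c j).isSome}) (U := G) hd (hk q).idem (hk q).symm (hk q).deg
      (hk q).perm he he1 (z := fun x => z x) A hA (fun x _ => hz x)
      (fun x hx => hz1 x q (by rw [typ_spec c x, hAq x hx])) σ
      (fun l x => C.pull (t l) (bas hρ a e (c x) (z x) (i' l)))
      (fun l g => mc ρ q ⟨0, hρ.pos q⟩ (i' l q) g) (fun l g => t l ≫ a g) ?_
    intro x hx l _
    have h2 : c x = some q := by rw [typ_spec c x, hAq x hx]
    simp only [h2, bas, Option.elim, emb, ga, map_sum, map_smul, C.pull_comp]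
  -- the translates
  have htr : ∀ p ∈ stab Γ c, C.act b (∑ i' : Fin n → Idx d, (co ρ c p i i' •
      ∏ x : {j // (c j).isSome}, C.pull (t (res c p x))
        (bas hρ a e (c x) (z x) (i' (res c p x)))) * E) =
      (∏ j, (wt d (c j) : F)) •
        C.act b (∏ j, C.pull (t j) (bas hρ a e (c j) (z j) (i j))) := by
    intro p hp
    rw [mem_stab] at hp
    obtain ⟨m, m', hm1, hm2, hm⟩ := exists_mor hP h0 h1 p
    rw [← act_pull_inv hm1 hm2 (hb p hp.1 m hm)
      (∏ j, C.pull (t j) (bas hρ a e (c j) (z j) (i j))), ← act_map_smul C]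
    congr 1
    have e1 : (∏ j, (wt d (c j) : F)) •
        C.pull m (∏ j, C.pull (t j) (bas hρ a e (c j) (z j) (i j))) =
        ∑ i' : Fin n → Idx d, co ρ c p i i' •
          ∏ j, C.pull (t (p.1 j)) (bas hρ a e (c j) (z j) (i' (p.1 j))) := by
      rw [map_prod, ← Finset.prod_smul]
      have h2 : ∀ j, (wt d (c j) : F) • C.pull m (C.pull (t j)
          (bas hρ a e (c j) (z j) (i j))) = ∑ x : Idx d, optMat ρ (c j) (p.2 j) (i j) x •
            C.pull (t (p.1 j)) (bas hρ a e (c j) (z j) x) := by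
        intro j
        rw [← C.pull_comp, hm, C.pull_comp, ← map_smul, pull_bas hρ h1 hinv, map_sum]
        exact Finset.sum_congr rfl fun x _ => by rw [map_smul]
      rw [Finset.prod_congr rfl fun j _ => h2 j, Finset.prod_univ_sum, Fintype.piFinset_univ,
        ← Equiv.sum_comp (Equiv.arrowCongr p.1⁻¹ (Equiv.refl (Idx d)))]
      refine Finset.sum_congr rfl fun i' _ => ?_
      have h3 : ∀ j, (Equiv.arrowCongr p.1⁻¹ (Equiv.refl (Idx d))) i' j = i' (p.1 j) :=
        fun j => rfl
      simp only [h3]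
      rw [Finset.prod_smul, co]
    rw [e1]
    refine Finset.sum_congr rfl fun i' _ => ?_
    rw [smul_mul_assoc]
    congr 1
    have e2 : ∏ x : {j // (c j).isSome}, C.pull (t (res c p x))
        (bas hρ a e (c x) (z x) (i' (res c p x))) =
        ∏ j ∈ Finset.univ.filter (fun j => (c j).isSome),
          C.pull (t (p.1 j)) (bas hρ a e (c j) (z j) (i' (p.1 j))) := by
      rw [← Finset.prod_subtype_eq_prod_filter, Finset.subtype_univ]
      refine Finset.prod_congr rfl fun x _ => ?_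
      rw [res_apply hp.2]
    have e3 : E = ∏ j ∈ Finset.univ.filter (fun j => ¬ (c j).isSome),
        C.pull (t (p.1 j)) (bas hρ a e (c j) (z j) (i' (p.1 j))) := by
      rw [hE]
      refine (Finset.prod_bij' (fun j _ => p.1 j) (fun j _ => p.1⁻¹ j) ?_ ?_ ?_ ?_ ?_).symm
      · intro j hj
        rw [Finset.mem_filter] at hj ⊢
        exact ⟨Finset.mem_univ _, by rw [hp.2]; exact hj.2⟩
      · intro j hj
        rw [Finset.mem_filter] at hj ⊢
        refine ⟨Finset.mem_univ _, ?_⟩
        have h3 := hp.2 (p.1⁻¹ j)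
        have h4 : p.1 (p.1⁻¹ j) = j := p.1.apply_symm_apply j
        rw [h4] at h3
        rw [← h3]
        exact hj.2
      · intro j _
        simp
      · intro j _
        simp
      · intro j hj
        rw [Finset.mem_filter] at hj
        have h3 : c j = none := Option.not_isSome_iff_eq_none.1 hj.2
        rw [h3]
        rfl
    rw [e2, e3, Finset.prod_filter_mul_prod_filter_not]
  have h3 : ((stab Γ c).card : F) • ((∏ j, (wt d (c j) : F)) •
      C.act b (∏ j, C.pull (t j) (bas hρ a e (c j) (z j) (i j)))) = 0 := by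
    rw [Nat.cast_smul_eq_nsmul, ← Finset.sum_const, ← Finset.sum_congr rfl htr,
      ← act_map_sum C, Finset.sum_comm]
    have h4 : (∑ i' : Fin n → Idx d, ∑ p ∈ stab Γ c, (co ρ c p i i' •
        ∏ x : {j // (c j).isSome}, C.pull (t (res c p x))
          (bas hρ a e (c x) (z x) (i' (res c p x)))) * E) = 0 :=
      Finset.sum_eq_zero fun i' _ => by rw [← Finset.sum_mul, key, zero_mul]
    rw [h4, C.act_map_zero]
  have h4 : ((stab Γ c).card : F) ≠ 0 := by
    rw [Nat.cast_ne_zero, Finset.card_ne_zero]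
    exact ⟨(1, 1), mem_stab.2 ⟨hΓ.one_mem, fun j => rfl⟩⟩
  have h6 : (∏ j, (wt d (c j) : F)) ≠ 0 :=
    Finset.prod_ne_zero_iff.2 fun j _ => Nat.cast_ne_zero.2 (wt_ne hρ.pos _)
  exact (smul_eq_zero.1 ((smul_eq_zero.1 h3).resolve_left h4)).resolve_left h6

/-- The classes on `Y` which come from exterior products. -/
theorem act_prod_mem [DecidableEq Φ] [DecidableEq G] (hρ : IsOrthogonalFamily d ρ) {z0 : G → F}
    (hcov : Covers d ρ z0 0) (hz0 : groupCorr C a e z0 = 0) (hd : X.dim = 1)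
    (h0 : a 1 = 𝟙 X) (h1 : ∀ g h, a (g * h) = a h ≫ a g)
    (he : C.Deg 1 e) (he1 : DegreeOne C e) (hinv : ∀ g, C.pull (a g) e = e)
    (hk : ∀ V, OddSym (groupCorr C a e (coeff hρ.pos ρ V)) (γ V))
    (hP : IsPowerOfCurve C t) (hΓ : IsWreathSubgroup Γ)
    (hb : ∀ p ∈ Γ, ∀ m : P ⟶ P, (∀ j, m ≫ t j = t (p.1 j) ≫ a (p.2 j)) →
      C.pull (prodMap m (𝟙 Y)) b = b) (hs : NoForms ρ γ Γ)
    (hdeg : ∀ z : C.A X, C.Deg 1 z → ∃ q : F,
      C.push (snd X X) (C.pull (fst X X) z) = q • (1 : C.A X))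
    (z : Fin n → C.A X) (hz : ∀ j, C.Deg 1 (z j)) :
    C.act b (∏ j, C.pull (t j) (z j)) ∈
      Submodule.span F {C.act b (∏ j, C.pull (t j) e)} := by
  classical
  choose q hq using fun j => hdeg (z j) (hz j)
  let z' : Fin n → C.A X := fun j => z j - q j • e
  have hz' : ∀ j, C.Deg 1 (z' j) := fun j =>
    Submodule.sub_mem _ (hz j) (Submodule.smul_mem _ _ he)
  have hq' : ∀ j, C.push (snd X X) (C.pull (fst X X) (z' j)) = 0 := by
    intro j
    have h4 : C.push (snd X X) (C.pull (fst X X) e) = 1 := (he1 X).1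
    rw [map_sub, map_sub, map_smul, map_smul, hq, h4, sub_self]
  have hm : ∀ j, C.act (midProj C e) (z' j) = z' j := by
    intro j
    rw [act_mid hd he (hz' j) (q := 0) (by rw [hq' j, zero_smul]), zero_smul, sub_zero]
  let x0 : Idx d := fun V => ⟨0, hρ.pos V⟩
  let ζ : Fin n → Option ((V : Φ) × Fin (d V)) → C.A X := fun j o =>
    o.elim e fun s => zeta hρ a s.1 s.2 (z' j)
  let y : Option ((V : Φ) × Fin (d V)) → Idx d := fun o =>
    o.elim x0 fun s => Function.update x0 s.1 s.2
  have h2 : ∀ j, C.pull (t j) (z j) = ∑ o : Option ((V : Φ) × Fin (d V)),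
      (o.elim (q j) fun _ => 1 : F) •
        C.pull (t j) (bas hρ a e (o.map Sigma.fst) (ζ j o) (y o)) := by
    intro j
    rw [Fintype.sum_option, Fintype.sum_sigma]
    have h3 : z j = q j • e + z' j := by
      simp only [z']
      abel
    conv_lhs => rw [h3, decomp hρ hcov h0 h1 hz0 (hm j), map_add, map_smul, map_sum]
    congr 1
    refine Finset.sum_congr rfl fun V _ => ?_
    rw [map_sum]
    refine Finset.sum_congr rfl fun i _ => ?_
    simp only [Option.elim, one_smul, Option.map_some, bas, ζ, y, Function.update_self]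
  rw [Finset.prod_congr rfl fun j _ => h2 j, Finset.prod_univ_sum, Fintype.piFinset_univ,
    act_map_sum C]
  refine Submodule.sum_mem _ fun O _ => ?_
  rw [Finset.prod_smul, act_map_smul C]
  refine Submodule.smul_mem _ _ ?_
  by_cases hO : ∀ j, O j = none
  · have h3 : ∏ j, C.pull (t j) (bas hρ a e ((O j).map Sigma.fst) (ζ j (O j)) (y (O j))) =
        ∏ j, C.pull (t j) e := Finset.prod_congr rfl fun j _ => by rw [hO j]; rfl
    rw [h3]
    exact Submodule.mem_span_singleton_self _
  · push Not at hO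
    obtain ⟨j0, hj0⟩ := hO
    have h3 := killed_type hρ hd h0 h1 he he1 hinv hk hP hΓ hb
      (fun j => (O j).map Sigma.fst) (fun β hβ => hs β ⟨j0, fun h => hj0 (by
        have h4 := hβ j0
        rw [h, Option.map_none] at h4
        exact Option.map_eq_none_iff.1 h4.symm)⟩) (fun j => y (O j)) (fun j => ζ j (O j))
      (fun j => by
        rcases hO' : O j with _ | s
        · exact he
        · exact ga_deg _ (hz' j))
      (fun j V hj => by
        rcases hO' : O j with _ | s
        · rw [hO'] at hj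
          simp at hj
        · rw [hO', Option.map_some] at hj
          obtain rfl := Option.some_injective _ hj
          exact zeta_fix hρ hd he h0 h1 (hz' j) (hq' j) s.1 s.2)
    rw [h3]
    exact Submodule.zero_mem _

end chow

/-- Zero-cycles of degree zero vanish if there are no forms. -/
theorem main_zero [hC : IsChowDeg C] [DecidableEq G] (hρ : IsOrthogonalFamily d ρ) {z0 : G → F}
    (hcov : Covers d ρ z0 0) (hX : IsCurveWithAction C X a hρ.pos ρ γ z0)
    (hP : IsPowerOfCurve C t) (hΓ : IsWreathSubgroup Γ) (hY : IsDominatedBy C a t Γ b)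
    (hs : NoForms ρ γ Γ) (α : C.A Y) (hα : C.Deg Y.dim α) (hα0 : DegreeZero C α) : α = 0 := by
  classical
  obtain ⟨hd, h0, h1, e, he, he1, hinv, hk, hz0⟩ := hX
  obtain ⟨hbd, hb, c, N, hc, hN, hdom⟩ := hY
  have h3 : ∀ w : C.A P, w ∈ Submodule.span F
      {w | ∃ z : Fin n → C.A X, (∀ j, C.Deg 1 (z j)) ∧
        w = (List.ofFn fun j => C.up (t j) (z j)).prod} →
      C.act b w ∈ Submodule.span F {C.act b (∏ j, C.pull (t j) e)} := by
    intro w hw
    induction hw using Submodule.span_induction with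
    | zero =>
      rw [C.act_map_zero]
      exact Submodule.zero_mem _
    | add x y _ _ hx hy =>
      rw [act_map_add C]
      exact Submodule.add_mem _ hx hy
    | smul q x _ hx =>
      rw [act_map_smul C]
      exact Submodule.smul_mem _ _ hx
    | mem w hw =>
      obtain ⟨z, hz, rfl⟩ := hw
      rw [List.prod_ofFn]
      exact act_prod_mem hρ hcov hz0 hd h0 h1 he he1 hinv
        (oddSym hρ hd h0 h1 he he1 hinv hk) hP hΓ hb hs
        (fun z hz => (hC.degree X z (by rw [hd]; exact hz)).imp fun q hq => hq X) z hz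
  have hspan : ∀ α : C.A Y, C.Deg Y.dim α →
      α ∈ Submodule.span F {C.act b (∏ j, C.pull (t j) e)} := by
    intro α hα
    have h2 : C.act c α ∈ C.gr P P.dim := by
      have h := C.push_mem (snd Y P) (C.mul_mem hc (C.pull_mem (fst Y P) hα))
      have e1 : (P.dim : ℤ) + Y.dim + 1 * ((P.dim : ℤ) - ((Y.prod P).dim : ℤ)) = P.dim := by
        rw [dim_prod]; push_cast; ring
      rw [e1] at h
      exact h
    have h4 := h3 _ (hP.cycles _ h2)
    rw [hdom α hα] at h4
    have h5 := Submodule.smul_mem _ N⁻¹ h4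
    rwa [smul_smul, inv_mul_cancel₀ hN, one_smul] at h5
  obtain ⟨u, hu, hu1⟩ := hC.exists_one Y
  obtain ⟨q, hq⟩ := Submodule.mem_span_singleton.1 (hspan α hα)
  obtain ⟨q', hq'⟩ := Submodule.mem_span_singleton.1 (hspan u hu)
  by_contra hne
  have hone : (1 : C.A Y) ≠ 0 := fun h => hne (by rw [← mul_one α, h, mul_zero])
  have hq0 : q ≠ 0 := fun h => hne (by rw [← hq, h, zero_smul])
  have h6 : u = (q' * q⁻¹) • α := by
    rw [← hq, ← hq', smul_smul, mul_assoc, inv_mul_cancel₀ hq0, mul_one]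
  have h7 : C.push (snd Y Y) (C.pull (fst Y Y) u) = 1 := (hu1 Y).1
  have h8 : C.push (snd Y Y) (C.pull (fst Y Y) α) = 0 := hα0 Y
  apply hone
  rw [← h7, h6, map_smul, map_smul, h8, smul_zero]

end Pool.Agent.H802GC
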