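import Pool.Agent.H802GC.Alt
import Pool.Agent.H802GC.Defs

/-!
# Sums over stabilizers
-/

universe u v w

namespace Pool.Agent.H802GC

open Equiv Pool.Agent.H802Voi

variable {G : Type} [Group G] {n : ℕ} {F : Type w} [Field F] {Φ : Type} {d : Φ → ℕ}

/-- Right multiplication in the wreath product. -/
def rmul (q : Wreath G n) : Wreath G n ≃ Wreath G n where
  toFun p := wmul p q
  invFun p := wmul p (q.1⁻¹, fun j => (q.2 (q.1⁻¹ j))⁻¹)
  left_inv p := by
    refine Prod.ext ?_ ?_
    · simp [wmul]
    · funext j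
      simp [wmul]
  right_inv p := by
    refine Prod.ext ?_ ?_
    · simp [wmul]
    · funext j
      simp [wmul]

open Classical in
/-- The restriction of a permutation. -/
noncomputable def res (c : Fin n → Option Φ) (p : Wreath G n) : Perm {j // (c j).isSome} :=
  if h : ∀ j, c (p.1 j) = c j then p.1.subtypePerm (fun j => by rw [h j]) else 1

open Classical in
/-- The stabilizer of `c`. -/
noncomputable def stab {α : Type} (Γ : Finset (Wreath G n)) (c : Fin n → Option α) :
    Finset (Wreath G n) := Γ.filter fun p => ∀ j, c (p.1 j) = c j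

lemma mem_stab {α : Type} {Γ : Finset (Wreath G n)} {c : Fin n → Option α} {p : Wreath G n} :
    p ∈ stab Γ c ↔ p ∈ Γ ∧ ∀ j, c (p.1 j) = c j := by
  classical
  rw [stab, Finset.mem_filter]

lemma res_apply {c : Fin n → Option Φ} {p : Wreath G n} (hp : ∀ j, c (p.1 j) = c j)
    (x : {j // (c j).isSome}) : ((res c p x : {j // (c j).isSome}) : Fin n) = p.1 x := by
  rw [res, dif_pos hp]
  rfl

lemma wmul_pres {α : Type} {c : Fin n → Option α} {p q : Wreath G n} (hp : ∀ j, c (p.1 j) = c j)
    (hq : ∀ j, c (q.1 j) = c j) (j : Fin n) : c ((wmul p q).1 j) = c j := by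
  change c (p.1 (q.1 j)) = c j
  rw [hp, hq]

lemma res_mul {c : Fin n → Option Φ} {p q : Wreath G n} (hp : ∀ j, c (p.1 j) = c j)
    (hq : ∀ j, c (q.1 j) = c j) : res c (wmul p q) = res c p * res c q := by
  ext x
  rw [res_apply (wmul_pres hp hq), Perm.mul_apply, res_apply hp, res_apply hq]
  rfl

/-- The type of a position. -/
def typ (c : Fin n → Option Φ) (x : {j // (c j).isSome}) : Φ := (c x.1).get x.2

omit [Group G] in
lemma typ_spec (c : Fin n → Option Φ) (x : {j // (c j).isSome}) :
    c x.1 = some (typ c x) := by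
  rw [typ, Option.some_get]

lemma res_typ {c : Fin n → Option Φ} {p : Wreath G n} (hp : ∀ j, c (p.1 j) = c j)
    (x : {j // (c j).isSome}) : typ c (res c p x) = typ c x := by
  have h := typ_spec c (res c p x)
  rw [res_apply hp, hp, typ_spec c x] at h
  exact (Option.some_injective _ h).symm

/-- Reindexing of a sum over a stabilizer by right multiplication. -/
lemma sum_stab {M : Type*} [AddCommGroup M] {Γ : Finset (Wreath G n)} (hΓ : IsWreathSubgroup Γ)
    (c : Fin n → Option Φ) {q : Wreath G n} (hq : q ∈ stab Γ c) (f : Wreath G n → M) :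
    ∑ p ∈ stab Γ c, f (wmul p q) = ∑ p ∈ stab Γ c, f p := by
  classical
  rw [mem_stab] at hq
  have h1 : (stab Γ c).map (rmul q).toEmbedding = stab Γ c := by
    refine Finset.eq_of_subset_of_card_le ?_ (by rw [Finset.card_map])
    intro p hp
    obtain ⟨p', hp', rfl⟩ := Finset.mem_map.1 hp
    rw [mem_stab] at hp' ⊢
    exact ⟨hΓ.mul_mem _ hp'.1 _ hq.1, wmul_pres hp'.2 hq.2⟩
  conv_rhs => rw [← h1, Finset.sum_map]
  rfl

lemma card_fib {γ : Φ → ℕ} [Fintype Φ] [DecidableEq Φ] (q : Φ) :
    Fintype.card {g : Col γ // g.1 = q} = γ q := by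
  rw [Fintype.card_congr (Equiv.sigmaSubtype q), Fintype.card_fin]

section mat

variable [Fintype Φ] [DecidableEq Φ] (ρ : (V : Φ) → G → Matrix (Fin (d V)) (Fin (d V)) F)

/-- The number of the choices with a given value. -/
def wt (d : Φ → ℕ) (o : Option Φ) : ℕ :=
  o.elim (Fintype.card (Idx d)) fun V => Fintype.card ((W : {W : Φ // W ≠ V}) → Fin (d W.1))

omit [Group G] in
lemma wt_ne (hd : ∀ V, 0 < d V) (o : Option Φ) : wt d o ≠ 0 := by
  have : ∀ V, Nonempty (Fin (d V)) := fun V => ⟨⟨0, hd V⟩⟩
  cases o with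
  | none => exact Fintype.card_ne_zero
  | some V => exact Fintype.card_ne_zero

omit [Group G] [Field F] in
/-- Sums over the choices of functions of one of the chosen values. -/
lemma sum_idx {M : Type*} [AddCommMonoid M] (V : Φ) (f : Fin (d V) → M) :
    ∑ m : Idx d, f (m V) = wt d (some V) • ∑ l, f l := by
  rw [Fintype.sum_equiv (Equiv.piSplitAt V fun V => Fin (d V)) (fun m => f (m V))
    (fun p => f p.1) (fun m => rfl), Fintype.sum_prod_type]
  simp only [Finset.sum_const, Finset.card_univ]
  rw [← Finset.smul_sum]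
  rfl

/-- The product of matrix coefficients. -/
lemma optMat_mul (hmul : ∀ V g h, ρ V (g * h) = ρ V g * ρ V h) (o : Option Φ) (g h : G)
    (x y : Idx d) : ∑ m : Idx d, optMat ρ o g x m * optMat ρ o h m y =
      (wt d o : F) * optMat ρ o (g * h) x y := by
  cases o with
  | none => simp [optMat, wt]
  | some V =>
    simp only [optMat, Option.elim]
    rw [sum_idx V fun l => ρ V g (x V) l * ρ V h l (y V), hmul, Matrix.mul_apply,
      nsmul_eq_mul]

/-- The coefficient attached to a type. -/
def co (c : Fin n → Option Φ) (p : Wreath G n) (i i' : Fin n → Idx d) : F :=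
  ∏ j, optMat ρ (c j) (p.2 j) (i j) (i' (p.1 j))

lemma co_mul (hmul : ∀ V g h, ρ V (g * h) = ρ V g * ρ V h) (c : Fin n → Option Φ)
    (p s : Wreath G n) (hs : ∀ j, c (s.1 j) = c j) (i i' : Fin n → Idx d) :
    (∏ j, (wt d (c j) : F)) * co ρ c (wmul p s) i i' =
      ∑ m : Fin n → Idx d, co ρ c s i m * co ρ c p m i' := by
  have h1 : (∏ j, (wt d (c j) : F)) * co ρ c (wmul p s) i i' =
      ∏ j, ∑ m : Idx d, optMat ρ (c j) (s.2 j) (i j) m *
        optMat ρ (c j) (p.2 (s.1 j)) m (i' (p.1 (s.1 j))) := by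
    rw [co, ← Finset.prod_mul_distrib]
    refine Finset.prod_congr rfl fun j _ => ?_
    rw [optMat_mul ρ hmul]
    rfl
  rw [h1, Finset.prod_univ_sum, Fintype.piFinset_univ]
  rw [← Equiv.sum_comp (Equiv.arrowCongr s.1⁻¹ (Equiv.refl (Idx d)))]
  refine Finset.sum_congr rfl fun m _ => ?_
  have h2 : ∀ j, (Equiv.arrowCongr s.1⁻¹ (Equiv.refl (Idx d))) m j = m (s.1 j) := fun j => rfl
  simp only [h2]
  rw [Finset.prod_mul_distrib]
  congr 1
  rw [co, ← Equiv.prod_comp s.1 fun l => optMat ρ (c l) (p.2 l) (m l) (i' (p.1 l))]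
  exact Finset.prod_congr rfl fun j _ => by rw [hs]

/-- The signs. -/
lemma stabSign_eq {γ : Φ → ℕ} {c : Fin n → Option Φ} {β : Fin n → Option (Col γ)}
    (hβ : ∀ j, (β j).map Sigma.fst = c j) {p : Wreath G n} (hp : ∀ j, β (p.1 j) = β j) :
    stabSign β p.1 = Perm.sign (res c p) := by
  classical
  have hc : ∀ j, c (p.1 j) = c j := by
    intro j
    rw [← hβ, ← hβ, hp]
  rw [stabSign, dif_pos hp]
  congr 1
  rw [← Perm.sign_ofSubtype, ← Perm.sign_ofSubtype (res c p)]
  congr 1
  have h1 : ∀ j, (β j).isSome = (c j).isSome := by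
    intro j
    rw [← hβ j]
    cases β j <;> rfl
  refine Equiv.ext fun j => ?_
  by_cases hj : (c j).isSome = true
  · rw [Perm.ofSubtype_apply_of_mem (p := fun j => (c j).isSome = true) (res c p) hj,
      Perm.ofSubtype_apply_of_mem (p := fun j => (β j).isSome = true) _ ((h1 j).trans hj),
      res_apply hc]
    rfl
  · rw [Perm.ofSubtype_apply_of_not_mem (p := fun j => (c j).isSome = true) (res c p) hj,
      Perm.ofSubtype_apply_of_not_mem (p := fun j => (β j).isSome = true) _
        (fun h => hj ((h1 j).symm.trans h))]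

/-- The vanishing of the sum over the stabilizer of a type. -/
theorem stab_sum [CharZero F] {M : Type*} [AddCommGroup M] [Module F M] {γ : Φ → ℕ}
    {Γ : Finset (Wreath G n)} (hΓ : IsWreathSubgroup Γ) (hd : ∀ V, 0 < d V)
    (hmul : ∀ V g h, ρ V (g * h) = ρ V g * ρ V h) (c : Fin n → Option Φ)
    (hk : ∀ β : Fin n → Option (Col γ), (∀ j, (β j).map Sigma.fst = c j) → IsKilled ρ γ Γ β)
    (i i' : Fin n → Idx d) (z : Perm {j // (c j).isSome} → M)
    (hz : ∀ (q : Φ) (A : Finset {j // (c j).isSome}), A.card = γ q + 1 →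
      (∀ x ∈ A, typ c x = q) → ∀ σ : Perm {j // (c j).isSome}, (∀ x, typ c (σ x) = typ c x) →
      ∑ ρ : Perm A, z (σ * Perm.ofSubtype ρ) = 0) :
    ∑ p ∈ stab Γ c, co ρ c p i i' • z (res c p) = 0 := by
  classical
  let L : Perm {j // (c j).isSome} → F := fun π =>
    ∑ p ∈ stab Γ c, if res c p = π then ((Perm.sign π : ℤ) : F) * co ρ c p i i' else 0
  have key := alt_sum (κ := {j // (c j).isSome}) (Q := Φ) (Γ := Col γ) (M := M)
    Sigma.fst (typ c) L ?_ ?_ z ?_
  · rw [← key]
    have e2 : ∀ π : Perm {j // (c j).isSome}, (((Perm.sign π : ℤ) : F) * L π) • z π =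
        ∑ p ∈ stab Γ c, if res c p = π then co ρ c p i i' • z (res c p) else 0 := by
      intro π
      simp only [L]
      rw [Finset.mul_sum, Finset.sum_smul]
      refine Finset.sum_congr rfl fun p _ => ?_
      split_ifs with h
      · subst h
        have e3 : ((Perm.sign (res c p) : ℤ) : F) * (((Perm.sign (res c p) : ℤ) : F) *
            co ρ c p i i') = co ρ c p i i' := by
          rw [← mul_assoc, ← Int.cast_mul, Int.units_coe_mul_self, Int.cast_one, one_mul]
        rw [e3]
      · rw [mul_zero, zero_smul]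
    rw [Finset.sum_congr rfl fun π _ => e2 π, Finset.sum_comm]
    refine Finset.sum_congr rfl fun p _ => ?_
    rw [Finset.sum_ite_eq]
    simp
  · intro π hπ
    obtain ⟨p, hp, hpp⟩ := Finset.exists_ne_zero_of_sum_ne_zero hπ
    split_ifs at hpp with h
    · subst h
      intro x
      exact res_typ (mem_stab.1 hp).2 x
    · exact absurd rfl hpp
  · intro c' hc' Y
    -- the colouring as a form
    let β : Fin n → Option (Col γ) := fun j =>
      if h : (c j).isSome then some (c' ⟨j, h⟩) else none
    have hβ : ∀ j, (β j).map Sigma.fst = c j := by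
      intro j
      simp only [β]
      split_ifs with h
      · rw [Option.map_some, hc', ← typ_spec c ⟨j, h⟩]
      · rw [Option.map_none]
        rw [Option.not_isSome_iff_eq_none] at h
        exact h.symm
    have hβs : ∀ x : {j // (c j).isSome}, β x = some (c' x) := by
      intro x
      simp only [β]
      rw [dif_pos x.2]
    have hkill := hk β hβ
    have hβc : ∀ s : Wreath G n, (∀ j, β (s.1 j) = β j) → ∀ j, c (s.1 j) = c j := by
      intro s hs j
      rw [← hβ, ← hβ, hs]
    have hc's : ∀ s : Wreath G n, (∀ j, β (s.1 j) = β j) → ∀ x, c' (res c s x) = c' x := by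
      intro s hs x
      apply Option.some_injective
      rw [← hβs, ← hβs, res_apply (hβc s hs), hs]
    -- the inner sums
    have hin : ∀ m : Fin n → Idx d,
        ∑ s ∈ stab Γ β, ((Perm.sign (res c s) : ℤ) : F) * co ρ c s i m = 0 := by
      intro m
      rw [← hkill i m, stab, Finset.sum_filter]
      refine Finset.sum_congr rfl fun s _ => ?_
      split_ifs with hs
      · rw [← stabSign_eq hβ hs, co]
        congr 1
        exact Finset.prod_congr rfl fun j _ => by rw [hβ]
      · rw [stabSign, dif_neg hs, Int.cast_zero, zero_mul]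
    -- the sum over the stabilizer
    set T : F := ∑ π, L π * ∏ x, Y (c' x) (π x) with hT
    have e1 : T = ∑ p ∈ stab Γ c,
        ((Perm.sign (res c p) : ℤ) : F) * co ρ c p i i' * ∏ x, Y (c' x) (res c p x) := by
      have e2 : ∀ π, L π * ∏ x, Y (c' x) (π x) = ∑ p ∈ stab Γ c, if res c p = π then
          ((Perm.sign (res c p) : ℤ) : F) * co ρ c p i i' * ∏ x, Y (c' x) (res c p x) else 0 := by
        intro π
        simp only [L]
        rw [Finset.sum_mul]
        refine Finset.sum_congr rfl fun p _ => ?_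
        split_ifs with h
        · subst h
          rfl
        · rw [zero_mul]
      rw [hT, Finset.sum_congr rfl fun π _ => e2 π, Finset.sum_comm]
      refine Finset.sum_congr rfl fun p _ => ?_
      rw [Finset.sum_ite_eq]
      simp
    have e3 : ∀ s ∈ stab Γ β, (∏ j, (wt d (c j) : F)) * T = ∑ p ∈ stab Γ c,
        ∑ m : Fin n → Idx d, (((Perm.sign (res c s) : ℤ) : F) * co ρ c s i m) *
          (((Perm.sign (res c p) : ℤ) : F) * co ρ c p m i' *
            ∏ x, Y (c' x) (res c p x)) := by
      intro s hs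
      rw [mem_stab] at hs
      have hsc : s ∈ stab Γ c := mem_stab.2 ⟨hs.1, hβc s hs.2⟩
      rw [e1, ← sum_stab hΓ c hsc (fun p => ((Perm.sign (res c p) : ℤ) : F) * co ρ c p i i' *
        ∏ x, Y (c' x) (res c p x)), Finset.mul_sum]
      refine Finset.sum_congr rfl fun p hp => ?_
      have hpc := (mem_stab.1 hp).2
      have e4 : ∏ x, Y (c' x) (res c (wmul p s) x) = ∏ x, Y (c' x) (res c p x) := by
        rw [← Equiv.prod_comp (res c s) fun x => Y (c' x) (res c p x)]
        refine Finset.prod_congr rfl fun x _ => ?_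
        rw [hc's s hs.2, res_mul hpc (hβc s hs.2)]
        rfl
      rw [e4, res_mul hpc (hβc s hs.2), Perm.sign_mul]
      have e5 := co_mul ρ hmul c p s (hβc s hs.2) i i'
      push_cast
      have e6 : ∑ m : Fin n → Idx d, (((Perm.sign (res c s) : ℤ) : F) * co ρ c s i m) *
          (((Perm.sign (res c p) : ℤ) : F) * co ρ c p m i' * ∏ x, Y (c' x) (res c p x)) =
          ((Perm.sign (res c s) : ℤ) : F) * ((Perm.sign (res c p) : ℤ) : F) *
            (∏ x, Y (c' x) (res c p x)) * ∑ m : Fin n → Idx d, co ρ c s i m * co ρ c p m i' := by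
        rw [Finset.mul_sum]
        exact Finset.sum_congr rfl fun m _ => by ring
      rw [e6, ← e5]
      ring
    have e4 : ((stab Γ β).card : F) * ((∏ j, (wt d (c j) : F)) * T) = 0 := by
      rw [← nsmul_eq_mul, ← Finset.sum_const, Finset.sum_congr rfl e3, Finset.sum_comm]
      refine Finset.sum_eq_zero fun p _ => ?_
      rw [Finset.sum_comm]
      refine Finset.sum_eq_zero fun m _ => ?_
      rw [← Finset.sum_mul, hin, zero_mul]
    have e5 : ((stab Γ β).card : F) ≠ 0 := by
      rw [Nat.cast_ne_zero, Finset.card_ne_zero]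
      exact ⟨(1, 1), mem_stab.2 ⟨hΓ.one_mem, fun j => rfl⟩⟩
    have e6 : (∏ j, (wt d (c j) : F)) ≠ 0 :=
      Finset.prod_ne_zero_iff.2 fun j _ => Nat.cast_ne_zero.2 (wt_ne hd _)
    exact (mul_eq_zero.1 ((mul_eq_zero.1 e4).resolve_left e5)).resolve_left e6
  · intro q A hA hAq π hπ
    rw [card_fib] at hA
    exact hz q A hA hAq π hπ

end mat

end Pool.Agent.H802GC
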