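import Pool.Agent.H802Voi.Main
import Pool.Agent.H802GC.Sum

/-!
# Symmetrizations of products of zero-cycles on a curve
-/

open CategoryTheory AlgebraicGeometry

universe u v w

namespace Pool.Agent.H802GC

open Pool.Agent.H914 Pool.Agent.H914.VarClass Pool.Agent.H914.VarClass.Obj Pool.Agent.W492.BB
  Pool.Agent.W550.Corr Pool.Agent.TH133 Pool.Agent.H802Voi

variable {k : Type u} [Field k] {𝒱 : VarClass k} {F : Type w} [Field F] [CharZero F]

variable {C : TheoryData.{u, v, w} 𝒱 F} [hC : IsChowOver C] {X Y Z W V T S P : 𝒱.Obj}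

set_option linter.unusedSectionVars false

include hC

/-- The exterior product of a fixed zero-cycle and a zero-cycle. -/
lemma fix_ext {p : C.A (X.prod X)} (hs : tp C p = p) {z e : C.A X} (hz : C.act p z = z) :
    C.comp p (C.pull (fst X X) z * C.pull (snd X X) e) =
      C.pull (fst X X) z * C.pull (snd X X) e := by
  apply ext_vl
  intro W x y
  have h1 : ∀ {U : 𝒱.Obj} (x : U ⟶ X) (y : U ⟶ X), vl C (C.pull (fst X X) z *
      C.pull (snd X X) e) x y = C.pull x z * C.pull y e := by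
    intro U x y
    rw [vl, map_mul, ← C.pull_comp, ← C.pull_comp, lift_fst, lift_snd]
  rw [vl_comp, h1, h1, ← hz]
  have h2 := pull_act (W := W) p z x
  rw [h2, hz, C.pull_comp, ← mul_assoc, C.proj_right, vl_symm hs]

/-- The symmetrization of a product of zero-cycles which come from a motive with vanishing
permanents is zero. -/
theorem relZ {m : ℕ} {p : C.A (X.prod X)} (hX : X.dim = 1) (hp : C.comp p p = p)
    (hs : tp C p = p) (hpd : p ∈ C.gr (X.prod X) X.dim) (h : PermZero C p (Fin m ⊕ Fin m))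
    {e : C.A X} (he : C.Deg 1 e) (he1 : DegreeOne C e) {z : Fin m → C.A X}
    (hz : ∀ j, C.Deg 1 (z j)) (hfix : ∀ j, C.act p (z j) = z j) (x : Fin m → (W ⟶ X)) :
    ∑ ρ : Equiv.Perm (Fin m), ∏ j, C.pull (x (ρ j)) (z j) = 0 := by
  obtain ⟨P, f, t, hP⟩ := exists_fub (C := C) W X m
  have h1 := rel hp hs hpd (by omega) h
    (α := fun j => C.pull (fst X X) (z j) * C.pull (snd X X) e)
    (fun j => by
      rw [hX]
      exact C.mul_mem (C.pull_mem _ (hz j)) (C.pull_mem _ he))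
    (fun j => fix_ext hs (hfix j)) (fun j => f ≫ x j) t
  have h2 := congrArg (C.push f) h1
  rw [map_zero, map_sum] at h2
  refine Eq.trans (Finset.sum_congr rfl fun ρ _ => ?_) h2
  have h3 : ∀ j : Fin m, vl C (C.pull (fst X X) (z j) * C.pull (snd X X) e) (f ≫ x (ρ j)) (t j) =
      vl C (C.pull (fst W X) (C.pull (x (ρ j)) (z j)) * C.pull (snd W X) e) f (t j) := by
    intro j
    rw [vl, vl, map_mul, map_mul, ← C.pull_comp, ← C.pull_comp, lift_fst, lift_snd,
      ← C.pull_comp (Obj.lift f (t j)) (fst W X), lift_fst,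
      ← C.pull_comp (Obj.lift f (t j)) (snd W X), lift_snd, C.pull_comp]
  rw [Finset.prod_congr rfl fun j _ => h3 j, hP]
  refine Finset.prod_congr rfl fun j _ => ?_
  have h4 : C.push (fst W X) (C.pull (snd W X) e) = 1 := (he1 W).2
  rw [C.proj_left, h4, mul_one]

/-- The version for combinations of pull-backs. -/
theorem relL {m : ℕ} {U : Type} [Fintype U] [DecidableEq U] {p : C.A (X.prod X)} (hX : X.dim = 1)
    (hp : C.comp p p = p)
    (hs : tp C p = p) (hpd : p ∈ C.gr (X.prod X) X.dim) (h : PermZero C p (Fin m ⊕ Fin m))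
    {e : C.A X} (he : C.Deg 1 e) (he1 : DegreeOne C e) {z : Fin m → C.A X}
    (hz : ∀ j, C.Deg 1 (z j)) (hfix : ∀ j, C.act p (z j) = z j) (c : Fin m → U → F)
    (y : Fin m → U → (W ⟶ X)) :
    ∑ ρ : Equiv.Perm (Fin m), ∏ j, ∑ u, c (ρ j) u • C.pull (y (ρ j) u) (z j) = 0 := by
  classical
  have h1 : ∀ ρ : Equiv.Perm (Fin m), ∏ j, ∑ u, c (ρ j) u • C.pull (y (ρ j) u) (z j) =
      ∑ s : Fin m → U, (∏ l, c l (s l)) • ∏ j, C.pull (y (ρ j) (s (ρ j))) (z j) := by
    intro ρ
    rw [Finset.prod_univ_sum, Fintype.piFinset_univ,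
      ← Equiv.sum_comp (Equiv.arrowCongr ρ⁻¹ (Equiv.refl U))]
    refine Finset.sum_congr rfl fun s _ => ?_
    have h2 : ∀ j, (Equiv.arrowCongr ρ⁻¹ (Equiv.refl U)) s j = s (ρ j) := fun j => rfl
    simp only [h2]
    rw [Finset.prod_smul, Equiv.prod_comp ρ fun l => c l (s l)]
  rw [Finset.sum_congr rfl fun ρ _ => h1 ρ, Finset.sum_comm]
  refine Finset.sum_eq_zero fun s _ => ?_
  rw [← Finset.smul_sum, relZ hX hp hs hpd h he he1 hz hfix fun l => y l (s l), smul_zero]

/-- The symmetrization over the positions in `A`. -/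
theorem relL_sub {a : ℕ} {κ U : Type} [Fintype κ] [DecidableEq κ] [Fintype U] [DecidableEq U]
    {p : C.A (X.prod X)}
    (hX : X.dim = 1) (hp : C.comp p p = p)
    (hs : tp C p = p) (hpd : p ∈ C.gr (X.prod X) X.dim)
    (h : PermZero C p (Fin (a + 1) ⊕ Fin (a + 1)))
    {e : C.A X} (he : C.Deg 1 e) (he1 : DegreeOne C e) {z : κ → C.A X} (A : Finset κ)
    (hA : A.card = a + 1) (hz : ∀ j ∈ A, C.Deg 1 (z j)) (hfix : ∀ j ∈ A, C.act p (z j) = z j)
    (σ : Equiv.Perm κ) (f : κ → κ → C.A W) (c : κ → U → F) (y : κ → U → (W ⟶ X))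
    (hf : ∀ j ∈ A, ∀ l ∈ A, f (σ l) j = ∑ u, c (σ l) u • C.pull (y (σ l) u) (z j)) :
    ∑ ρ : Equiv.Perm A, ∏ j, f (σ (Equiv.Perm.ofSubtype ρ j)) j = 0 := by
  classical
  let e' : Fin (a + 1) ≃ A := (A.equivFinOfCardEq hA).symm
  have h1 := relL hX hp hs hpd h he he1 (z := fun i => z (e' i)) (fun i => hz _ (e' i).2)
    (fun i => hfix _ (e' i).2) (fun i => c (σ (e' i))) (fun i => y (σ (e' i)))
  rw [← Equiv.sum_comp e'.permCongr]
  have h2 : ∀ ρ : Equiv.Perm (Fin (a + 1)),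
      ∏ j, f (σ (Equiv.Perm.ofSubtype (e'.permCongr ρ) j)) j =
        (∏ i, ∑ u, c (σ (e' (ρ i))) u • C.pull (y (σ (e' (ρ i))) u) (z (e' i))) *
          ∏ j ∈ Aᶜ, f (σ j) j := by
    intro ρ
    rw [← Finset.prod_mul_prod_compl A]
    congr 1
    · rw [← Finset.prod_coe_sort, ← Equiv.prod_comp e']
      refine Finset.prod_congr rfl fun i _ => ?_
      rw [Equiv.Perm.ofSubtype_apply_coe, Equiv.permCongr_apply, Equiv.symm_apply_apply,
        hf _ (e' i).2 _ (e' (ρ i)).2]
    · refine Finset.prod_congr rfl fun j hj => ?_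
      rw [Equiv.Perm.ofSubtype_apply_of_not_mem _ (Finset.mem_compl.1 hj)]
  rw [Finset.sum_congr rfl fun ρ _ => h2 ρ, ← Finset.sum_mul, h1, zero_mul]

section group

variable {G : Type} [Group G] [Fintype G] {a : G → (X ⟶ X)} {e : C.A X}

/-- The action of the elements of the group algebra on classes. -/
noncomputable def ga (C : TheoryData.{u, v, w} 𝒱 F) (a : G → (X ⟶ X)) (c : G → F)
    (z : C.A X) : C.A X := ∑ g, c g • C.pull (a g) z

lemma ga_deg (c : G → F) {z : C.A X} (hz : C.Deg 1 z) : C.Deg 1 (ga C a c z) :=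
  Submodule.sum_mem _ fun _ _ => Submodule.smul_mem _ _ (C.pull_mem _ hz)

lemma pull_ga (h1 : ∀ g h, a (g * h) = a h ≫ a g) (c : G → F) (g : G) (z : C.A X) :
    C.pull (a g) (ga C a c z) = ga C a (fun x => c (x * g⁻¹)) z := by
  rw [ga, ga, map_sum, ← Equiv.sum_comp (Equiv.mulRight g⁻¹) fun x => C.pull (a g)
    (c x • C.pull (a x) z)]
  refine Finset.sum_congr rfl fun x _ => ?_
  rw [Equiv.coe_mulRight, map_smul, ← C.pull_comp, ← h1, inv_mul_cancel_right]

lemma ga_ga (h1 : ∀ g h, a (g * h) = a h ≫ a g) (c c' : G → F) (z : C.A X) :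
    ga C a c (ga C a c' z) = ga C a (fun x => ∑ g, c g * c' (x * g⁻¹)) z := by
  rw [ga]
  have h2 : ∀ g, c g • C.pull (a g) (ga C a c' z) =
      ∑ x, (c g * c' (x * g⁻¹)) • C.pull (a x) z := by
    intro g
    rw [pull_ga h1, ga, Finset.smul_sum]
    exact Finset.sum_congr rfl fun x _ => by rw [smul_smul]
  rw [Finset.sum_congr rfl fun g _ => h2 g, Finset.sum_comm, ga]
  refine Finset.sum_congr rfl fun x _ => ?_
  rw [Finset.sum_smul]

/-- The action of the correspondences of the group algebra. -/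
lemma act_groupCorr (c : G → F) (z : C.A X) : C.act (groupCorr C a e c) z = ga C a c (C.act (midProj C e) z) := by
  rw [groupCorr_eq, act_sum C, ga]
  refine Finset.sum_congr rfl fun g _ => ?_
  have h2 : C.act (c g • gP a e g) z = c g • C.act (gP a e g) z := by
    rw [TheoryData.act_apply, smul_mul_assoc, map_smul]
    rfl
  rw [h2]
  congr 1
  rw [pull_act, ← C.pull_id (C.act (gP a e g) z), pull_act, vl_gP, Category.comp_id]

omit [CharZero F] in
/-- The degree is invariant under automorphisms. -/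
lemma deg_pull (h0 : a 1 = 𝟙 X) (h1 : ∀ g h, a (g * h) = a h ≫ a g) (g : G) (z : C.A X) :
    C.push (snd X Y) (C.pull (fst X Y) (C.pull (a g) z)) =
      C.push (snd X Y) (C.pull (fst X Y) z) := by
  have k1 : ∀ {u v : X ⟶ X}, u ≫ v = 𝟙 X → prodMap u (𝟙 Y) ≫ prodMap v (𝟙 Y) = 𝟙 (X.prod Y) := by
    intro u v huv
    apply prod_ext
    · rw [Category.assoc, prodMap_fst, ← Category.assoc, prodMap_fst, Category.assoc, huv]
      simp
    · simp
  have e1 : C.pull (fst X Y) (C.pull (a g) z) =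
      C.pull (prodMap (a g) (𝟙 Y)) (C.pull (fst X Y) z) := by
    rw [← C.pull_comp, ← C.pull_comp, prodMap_fst]
  have e2 : prodMap (a g) (𝟙 Y) ≫ snd X Y = snd X Y := by simp
  rw [e1]
  conv_lhs => rw [← e2, C.push_comp, push_pull_iso C _ _ (k1 (act_left h0 h1 g))
    (k1 (act_right h0 h1 g))]

/-- The action of the projector on zero-cycles. -/
lemma act_mid (hd : X.dim = 1) (he : C.Deg 1 e) {z : C.A X} (hz : C.Deg 1 z) {q : F}
    (hq : C.push (snd X X) (C.pull (fst X X) z) = q • (1 : C.A X)) :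
    C.act (midProj C e) z = z - q • e := by
  have h2 : e * z = 0 := hC.gr_top _ (1 + 1) _ (C.mul_mem he hz) (by rw [hd]; norm_num)
  have h3 : C.act (C.pull (fst X X) e) z = 0 := by
    rw [TheoryData.act_apply, ← map_mul, h2, map_zero, map_zero]
  have h4 : C.act (C.pull (snd X X) e) z = q • e := by
    rw [TheoryData.act_apply, C.proj_left, hq, mul_smul_comm, mul_one]
  rw [midProj, C.act_sub, C.act_sub, act_dg, h3, h4, sub_zero]

/-- Combinations of translates of zero-cycles of degree zero are fixed by the projector. -/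
lemma act_mid_ga (hd : X.dim = 1) (he : C.Deg 1 e) (h0 : a 1 = 𝟙 X)
    (h1 : ∀ g h, a (g * h) = a h ≫ a g) {z : C.A X} (hz : C.Deg 1 z)
    (hq : C.push (snd X X) (C.pull (fst X X) z) = 0) (c : G → F) :
    C.act (midProj C e) (ga C a c z) = ga C a c z := by
  rw [act_mid hd he (ga_deg c hz) (q := 0), zero_smul, sub_zero]
  rw [ga, map_sum, map_sum, zero_smul]
  refine Finset.sum_eq_zero fun g _ => ?_
  rw [map_smul, map_smul, deg_pull h0 h1, hq, smul_zero]

variable {Φ : Type} {d : Φ → ℕ} {ρ : (V : Φ) → G → Matrix (Fin (d V)) (Fin (d V)) F}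

/-- The matrix coefficients, normalised. -/
noncomputable def mc (ρ : (V : Φ) → G → Matrix (Fin (d V)) (Fin (d V)) F) (V : Φ)
    (x y : Fin (d V)) (g : G) : F := (d V : F) / Fintype.card G * ρ V g x y

omit hC in
lemma mc_conv (hρ : IsOrthogonalFamily d ρ) (V : Φ) (p q r : Fin (d V)) (x : G) :
    ∑ g, mc ρ V p q g * mc ρ V r p (x * g⁻¹) = mc ρ V r q x := by
  have hd : (d V : F) ≠ 0 := Nat.cast_ne_zero.2 (hρ.pos V).ne'
  have hG : (Fintype.card G : F) ≠ 0 := card_ne
  have h1 : ∀ g, mc ρ V p q g * mc ρ V r p (x * g⁻¹) =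
      ∑ m, ((d V : F) / Fintype.card G) ^ 2 * (ρ V x r m * (ρ V g p q * ρ V g p m)) := by
    intro g
    rw [mc, mc, hρ.map_mul, Matrix.mul_apply, Finset.mul_sum, Finset.mul_sum]
    refine Finset.sum_congr rfl fun m _ => ?_
    rw [hρ.map_inv, Matrix.transpose_apply]
    ring
  rw [Finset.sum_congr rfl fun g _ => h1 g, Finset.sum_comm, Finset.sum_eq_single q]
  · rw [← Finset.mul_sum, ← Finset.mul_sum, hρ.schur_self, if_pos ⟨rfl, rfl⟩, mc]
    field_simp
  · intro m _ hm
    rw [← Finset.mul_sum, ← Finset.mul_sum, hρ.schur_self, if_neg fun h2 => hm h2.2.symm,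
      mul_zero, mul_zero]
  · intro h2
    exact absurd (Finset.mem_univ _) h2

/-- The component of a zero-cycle of degree zero. -/
noncomputable def zeta (hρ : IsOrthogonalFamily d ρ) (a : G → (X ⟶ X)) (V : Φ)
    (i : Fin (d V)) (z : C.A X) : C.A X := ga C a (mc ρ V i ⟨0, hρ.pos V⟩) z

/-- The embedding of the multiplicity space. -/
noncomputable def emb (hρ : IsOrthogonalFamily d ρ) (a : G → (X ⟶ X)) (V : Φ)
    (i : Fin (d V)) (z : C.A X) : C.A X := ga C a (mc ρ V ⟨0, hρ.pos V⟩ i) z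

lemma emb_zeta (hρ : IsOrthogonalFamily d ρ) (h1 : ∀ g h, a (g * h) = a h ≫ a g) (V : Φ)
    (i : Fin (d V)) (z : C.A X) : emb hρ a V i (zeta hρ a V i z) = ga C a (mc ρ V i i) z := by
  rw [emb, zeta, ga_ga h1]
  congr 1
  funext x
  exact mc_conv hρ V _ _ _ x

lemma zeta_fix (hρ : IsOrthogonalFamily d ρ) (hd : X.dim = 1) (he : C.Deg 1 e) (h0 : a 1 = 𝟙 X)
    (h1 : ∀ g h, a (g * h) = a h ≫ a g) {z : C.A X} (hz : C.Deg 1 z)
    (hq : C.push (snd X X) (C.pull (fst X X) z) = 0) (V : Φ) (i : Fin (d V)) :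
    C.act (groupCorr C a e (coeff hρ.pos ρ V)) (zeta hρ a V i z) = zeta hρ a V i z := by
  rw [act_groupCorr, zeta, act_mid_ga hd he h0 h1 hz hq]
  have h2 : coeff hρ.pos ρ V = mc ρ V ⟨0, hρ.pos V⟩ ⟨0, hρ.pos V⟩ := rfl
  rw [h2, ga_ga h1]
  congr 1
  funext x
  exact mc_conv hρ V _ _ _ x

/-- The action on the embeddings. -/
lemma pull_emb (hρ : IsOrthogonalFamily d ρ) (h1 : ∀ g h, a (g * h) = a h ≫ a g) (V : Φ)
    (x : Fin (d V)) (g : G) (z : C.A X) :
    C.pull (a g) (emb hρ a V x z) = ∑ m, ρ V g x m • emb hρ a V m z := by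
  rw [emb, pull_ga h1]
  simp only [emb, ga, Finset.smul_sum]
  rw [Finset.sum_comm]
  refine Finset.sum_congr rfl fun y _ => ?_
  simp only [smul_smul]
  rw [← Finset.sum_smul]
  congr 1
  rw [mc, hρ.map_mul, Matrix.mul_apply, Finset.mul_sum]
  refine Finset.sum_congr rfl fun m _ => ?_
  rw [hρ.map_inv, Matrix.transpose_apply, mc]
  ring

/-- The decomposition of a zero-cycle of degree zero. -/
lemma decomp [Fintype Φ] [DecidableEq G] (hρ : IsOrthogonalFamily d ρ) {z0 : G → F}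
    (hcov : Covers d ρ z0 0) (h0 : a 1 = 𝟙 X) (h1 : ∀ g h, a (g * h) = a h ≫ a g)
    (hz0 : groupCorr C a e z0 = 0) {z : C.A X} (hz : C.act (midProj C e) z = z) :
    z = ∑ V, ∑ i, emb hρ a V i (zeta hρ a V i z) := by
  simp only [emb_zeta hρ h1]
  have h2 : ga C a z0 z = 0 := by
    rw [← hz, ← act_groupCorr (e := e), hz0]
    exact C.act_zero _
  have h3 : ga C a (fun g => if g = 1 then (1 : F) else 0) z = z := by
    simp only [ga, ite_smul, one_smul, zero_smul]
    rw [Finset.sum_ite_eq' Finset.univ (1 : G), if_pos (Finset.mem_univ _), h0, C.pull_id]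
  have h4 : ga C a (fun g => if g = 1 then (1 : F) else 0) z =
      ga C a z0 z + ∑ V, ∑ i, ga C a (mc ρ V i i) z := by
    simp only [ga]
    rw [Finset.sum_congr rfl fun V _ => Finset.sum_comm, Finset.sum_comm,
      ← Finset.sum_add_distrib]
    refine Finset.sum_congr rfl fun g _ => ?_
    rw [← hcov g, Pi.zero_apply, add_zero, add_smul, Finset.sum_smul]
    congr 1
    refine Finset.sum_congr rfl fun V _ => ?_
    rw [← Finset.sum_smul, Matrix.trace, Finset.mul_sum]
    rfl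
  rw [h2, zero_add] at h4
  exact h3.symm.trans h4

end group

end Pool.Agent.H802GC
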